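import Mathlib
import Pool.Agent.R439.QBlock
import Pool.Agent.R439.Quad

set_option autoImplicit false

namespace Pool.Agent.Results.MP_c82d9a_nt.EightCongruence

open Finset Polynomial Pool.Agent.R439

/-- `c_j(q)` -/
noncomputable def cq (j : ℕ) : K := (poch q (q ^ 2) j / poch q q j) ^ 3

/-- `b_j` -/
def b (j : ℕ) : ℚ := 8 ^ j * rf (1 / 2) j ^ 3 / (j.factorial : ℚ) ^ 3

/-- The left-hand side `L_{m,n}(q)` of the problem. -/
noncomputable def L (m n : ℕ) : K :=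
  ∑ j ∈ range (m * n), (-1) ^ j * qint (3 * (j : ℤ) + 1) * cq j

/-- The right-hand side `R_{m,n}(q)` of the problem. -/
noncomputable def R (m n : ℕ) : K :=
  (-1) ^ ((n - 1) / 2) * q ^ ((n - 1) ^ 2 / 4) * qint n *
    ((∑ j ∈ range m, (-1) ^ j * (3 * (j : ℚ) + 1) * b j : ℚ) : K)

section
variable {n M : ℕ} [NeZero n]

/-- the term of `L` -/
noncomputable def f (k : ℕ) : K := (-1) ^ k * qint (3 * (k : ℤ) + 1) * cq k

/-- `(q;q)_i` shifted by `t` -/
noncomputable abbrev hh (n : ℕ) (i : ℕ) (t : ℤ) : K := gp n 1 q i t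

theorem hfac (e : ℤ) (l : ℕ) (t : ℤ) :
    q ^ (e + (n : ℤ) * t) * q ^ l = q ^ (e + l + (n : ℤ) * t) := by
  rw [← zpow_natCast q l, ← zpow_add₀ q_ne]
  congr 1; ring

theorem hh_U {i : ℕ} (hi : i < n) (t : ℤ) : U n (hh n i t) := by
  unfold hh gp poch
  refine U.prod fun l hl => ?_
  have := mem_range.1 hl
  rw [hfac]
  refine U_one_sub (not_dvd_aux (r := 1) (l := l + 1) (Nat.coprime_one_right n) (by omega)
    (by omega) t ?_)
  push_cast; ring

/-- numerator terms of a block -/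
noncomputable def tt (n : ℕ) (j : ℤ) (i : ℕ) : K :=
  (-1) ^ i * (1 - q ^ (3 * (i : ℤ) + 1 + n * (3 * j))) *
    (g1 n 1 i (2 * j) * g1 n 1 i (2 * j) * g1 n 1 i (2 * j) *
      ((hh n i j)⁻¹ * (hh n i j)⁻¹ * (hh n i j)⁻¹))

/-- the exactly summable terms -/
noncomputable def ss (n : ℕ) (j : ℤ) (i : ℕ) : K :=
  (-1) ^ i * (1 - q ^ (3 * (i : ℤ) + 1 + n * (3 * j))) *
    (g1 n 1 i (3 * j) * g1 n 1 i (-1) * g1 n 1 i (3 * j + 1) *
      ((hh n i 0)⁻¹ * (hh n i (-1))⁻¹ * (hh n i (3 * j + 1))⁻¹))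

theorem hh_inv_aff {i : ℕ} (hi : i < n) : Aff n (fun t => (hh n i t)⁻¹) :=
  (gp_aff q_mem _ _).inv fun t => hh_U hi t

theorem tt_ss (j : ℤ) {i : ℕ} (hi : i < n) :
    EQ n 2 (tt n j i) (ss n j i) := by
  unfold tt ss
  refine (EQ.refl ?_).mul (EQ.mul ?_ ?_)
  · exact mul_mem (pow_mem (neg_mem (one_mem _)) _) (sub_mem (one_mem _) (zpow_mem _))
  · exact (gp_aff (n := n) (pow_mem' _) _ i).mul_three _ _ _ _ _ _ (by ring)
  · exact (hh_inv_aff hi).mul_three _ _ _ _ _ _ (by ring)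

/-- exact evaluation -/
theorem ss_sum (hn : n = 2 * M + 1) (j : ℕ) :
    ∑ i ∈ range (M + 1), ss n j i =
      (-1) ^ M * q ^ (M ^ 2) * (g1 n 1 M (3 * j) * (1 - q ^ ((n : ℤ) * (3 * j + 1))) /
        g1 n 1 M 0) := by
  have hodd : (n : ℤ) = 2 * M + 1 := by rw [hn]; push_cast; ring
  set s : K := q ^ ((n : ℤ) * (3 * j)) with hs
  have hb : ∀ i : ℕ, 0 < i → (q : K) ^ i ≠ 1 := fun i hi => q_pow_ne_one hi.ne'
  have hs1 : ∀ i : ℕ, 0 < i → (q : K) ^ i * s ≠ 1 := by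
    intro i hi
    rw [hs, ← zpow_natCast q i, ← zpow_add₀ q_ne]
    apply q_zpow_ne_one
    positivity
  have hsum := quad_sum q_ne hb hs1 M
  have e0 : q * s = q ^ ((1 : ℤ) + n * (3 * j)) := by
    rw [hs, zpow_add₀ q_ne, zpow_one]
  have e1 : poch (q * s) (q ^ 2) (M + 1) =
      g1 n 1 M (3 * j) * (1 - q ^ ((n : ℤ) * (3 * j + 1))) := by
    rw [poch_succ, g1, gp, e0, mul_one, Nat.cast_one]
    congr 2
    rw [← pow_mul, ← zpow_natCast q (2 * M), ← zpow_add₀ q_ne]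
    congr 1; rw [hodd]; push_cast; ring
  have e2 : poch q (q ^ 2) M = g1 n 1 M 0 := by
    rw [g1, gp, mul_one, Nat.cast_one, mul_zero, add_zero, zpow_one]
  have e3 : ∀ i ∈ range (M + 1), ss n j i = FQ q s M i := by
    intro i _
    have t1 : g1 n 1 i (3 * j) = poch (q * s) (q ^ 2) i := by
      rw [g1, gp, e0, mul_one, Nat.cast_one]
    have ez : q ^ ((1 : ℤ) + n * (-1)) = q ^ (-(2 * M : ℤ)) := by
      congr 1; rw [hodd]; ring
    have eY : q ^ ((1 : ℤ) + n * (3 * j + 1)) = q ^ (2 * M + 2) * s := by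
      rw [hs, ← zpow_natCast q (2 * M + 2), ← zpow_add₀ q_ne]
      congr 1; rw [hodd]; push_cast; ring
    have t2 : g1 n 1 i (-1) = poch (q ^ (-(2 * M : ℤ))) (q ^ 2) i := by
      rw [g1, gp, mul_one, Nat.cast_one, ez]
    have t3 : g1 n 1 i (3 * j + 1) = poch (q ^ (2 * M + 2) * s) (q ^ 2) i := by
      rw [g1, gp, mul_one, Nat.cast_one, eY]
    have t4 : hh n i 0 = poch q q i := by rw [hh, gp, mul_zero, add_zero, zpow_one]
    have t5 : hh n i (-1) = poch (q ^ (-(2 * M : ℤ))) q i := by rw [hh, gp, ez]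
    have t6 : hh n i (3 * j + 1) = poch (q ^ (2 * M + 2) * s) q i := by rw [hh, gp, eY]
    have t7 : q ^ (3 * (i : ℤ) + 1 + n * (3 * j)) = q * s * (q ^ i) ^ 3 := by
      rw [e0, ← pow_mul, ← zpow_natCast q (i * 3), ← zpow_add₀ q_ne]
      congr 1; push_cast; ring
    rw [ss, FQ, t1, t2, t3, t4, t5, t6, t7]
    simp only [div_eq_mul_inv]
    ring
  rw [sum_congr rfl e3, hsum, e1, e2]
  ring

theorem one_sub_q_U (hn1 : 1 < n) : U n (1 - q) := by
  have := U_one_sub (n := n) (e := 1) (fun h => by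
    have := Int.le_of_dvd one_pos h
    omega)
  rwa [zpow_one] at this

/-- quotient at multiples of `n` -/
noncomputable def PP (n j : ℕ) : K := poch q (q ^ 2) (j * n) / poch q q (j * n)

/-- prefactor of block `j` -/
noncomputable def pf (n j : ℕ) : K := (-1) ^ j * PP n j ^ 3 / (1 - q)

theorem poch_num (j i : ℕ) : poch q (q ^ 2) (j * n + i) = poch q (q ^ 2) (j * n) *
    g1 n 1 i (2 * j) := by
  have h := poch_block1 (n := n) 1 j i
  rwa [pow_one, mul_one, Nat.cast_one, mul_one] at h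

theorem poch_den (j i : ℕ) : poch q q (j * n + i) = poch q q (j * n) * hh n i j := by
  rw [poch_add, hh, gp]
  congr 2
  rw [← pow_succ', ← zpow_natCast]
  congr 1; push_cast; ring

theorem f_block (hn : n = 2 * M + 1) (j i : ℕ) : f (j * n + i) = pf n j * tt n j i := by
  rw [f, tt, pf, PP, cq, poch_num, poch_den, qint]
  have e1 : ((-1 : K)) ^ (j * n + i) = (-1) ^ j * (-1) ^ i := by
    rw [pow_add, hn]
    congr 1
    rw [mul_add, mul_one, pow_add, ← mul_assoc, mul_comm j 2, mul_assoc, pow_mul]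
    simp
  have e2 : q ^ (3 * ((j * n + i : ℕ) : ℤ) + 1) = q ^ (3 * (i : ℤ) + 1 + n * (3 * j)) := by
    congr 1; push_cast; ring
  rw [e1, e2, mul_div_mul_comm]
  simp only [div_eq_mul_inv]
  ring

/-- splitting of `(q;q)_{2M}` -/
theorem hh_split (hn : n = 2 * M + 1) : hh n (2 * M) 0 = g1 n 1 M 0 * g2 n 1 M 0 := by
  rw [hh, g1, g2, gp, gp, gp, mul_one, mul_zero, add_zero, add_zero, add_zero, zpow_one,
    Nat.cast_one, zpow_one, zpow_natCast]
  clear hn
  induction M with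
  | zero => simp [poch]
  | succ k ih =>
    rw [show 2 * (k + 1) = 2 * k + 1 + 1 by ring, poch_succ, poch_succ, poch_succ, poch_succ, ih]
    have e1 : (q ^ 2 : K) * (q ^ 2) ^ k = q * q ^ (2 * k + 1) := by
      rw [← pow_mul, ← pow_add, ← pow_succ']; congr 1; ring
    have e2 : (q : K) * (q ^ 2) ^ k = q * q ^ (2 * k) := by rw [← pow_mul]
    rw [e1, e2]
    ring

theorem PP_succ (hn : n = 2 * M + 1) (j : ℕ) :
    PP n (j + 1) = PP n j * ((g1 n 1 M (2 * j) * g2 n 1 M (2 * j + 1)) / hh n (2 * M) j *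
      (qi n (2 * j + 1) / qi n (j + 1))) := by
  have hlt : 2 * M < n := by omega
  have h1 := (hh_U (n := n) hlt j).1
  have h3 := (qi_U (n := n) (s := j + 1) (by positivity)).1
  have h4 : poch (q : K) q (j * n) ≠ 0 := poch_self_ne (fun i hi => q_pow_ne_one hi.ne') (j * n)
  have h5 := w_ne (n := n)
  have a1 : poch q (q ^ 2) ((j + 1) * n) = poch q (q ^ 2) (j * n) *
      (g1 n 1 M (2 * j) * g2 n 1 M (2 * j + 1) * (w n * qi n (2 * j + 1))) := by
    have h := block_num (n := n) (r := 1) hn j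
    rw [pow_one, mul_one] at h
    rw [Nat.succ_mul j n, poch_add, h, w_qi]
    norm_num
  have a2 : poch q q ((j + 1) * n) = poch q q (j * n) * (hh n (2 * M) j * (w n * qi n (j + 1))) := by
    rw [Nat.succ_mul j n, poch_den]
    congr 1
    conv_lhs => rw [hn]
    rw [hh, gp, poch_succ, ← gp, w_qi]
    have e : q ^ ((1 : ℤ) + ((2 * M + 1 : ℕ) : ℤ) * j) * q ^ (2 * M) = q ^ ((n : ℤ) * (j + 1)) := by
      rw [← zpow_natCast q (2 * M), ← zpow_add₀ q_ne]
      congr 1; rw [hn]; push_cast; ring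
    rw [e]
    subst hn
    rfl
  rw [PP, PP, a1, a2]
  field_simp

theorem PP_eq (hn : n = 2 * M + 1) (j : ℕ) :
    EQ n 1 (PP n j) ((2 ^ j * ch j : ℚ) : K) := by
  induction j with
  | zero => rw [PP, ch_zero]; simpa [poch] using EQ.refl (one_mem (O n))
  | succ j ih =>
    have e : (2 ^ (j + 1) * ch (j + 1) : ℚ) = 2 ^ j * ch j * ((2 * j + 1) / (j + 1)) := by
      rw [ch_succ]
      have : (j + 1 : ℚ) ≠ 0 := by positivity
      field_simp
      ring
    rw [PP_succ hn, e, Rat.cast_mul]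
    refine ih.mul ?_
    have hlt : 2 * M < n := by omega
    have hB : (q ^ (2 * 1) : K) ∈ O n := pow_mem' _
    have a1 : EQ n 1 (g1 n 1 M (2 * j)) (g1 n 1 M 0) := (gp_aff hB _ _).eq_one _ _
    have a2 : EQ n 1 (g2 n 1 M (2 * j + 1)) (g2 n 1 M 0) := (gp_aff hB _ _).eq_one _ _
    have a3 : EQ n 1 (hh n (2 * M) j) (hh n (2 * M) 0) := (gp_aff q_mem _ _).eq_one _ _
    have u1 := hh_U (n := n) hlt j
    have b1 : EQ n 1 ((g1 n 1 M (2 * j) * g2 n 1 M (2 * j + 1)) / hh n (2 * M) j) 1 := by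
      have := (a1.mul a2).div one_pos a3 u1
      rw [hh_split hn, div_self] at this
      · exact this
      · rw [← hh_split hn]; exact (hh_U (n := n) hlt 0).1
    have b2 : EQ n 1 (qi n (2 * j + 1) / qi n (j + 1)) ((((2 * j + 1) / (j + 1) : ℚ)) : K) := by
      have := (qi_eq (n := n) (2 * j + 1)).div one_pos (qi_eq (n := n) (j + 1))
        (qi_U (by positivity))
      have e : (((2 * j + 1 : ℤ)) : K) / (((j + 1 : ℤ)) : K) =
          ((((2 * j + 1) / (j + 1) : ℚ)) : K) := by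
        push_cast; rfl
      rwa [e] at this
    have := b1.mul b2
    rwa [one_mul] at this

theorem pf_eq (hn : n = 2 * M + 1) (hn1 : 1 < n) (j : ℕ) :
    EQ n 1 (pf n j) ((-1) ^ j * ((2 ^ j * ch j : ℚ) : K) ^ 3 / (1 - q)) := by
  have h1 := one_sub_q_U hn1
  have h3 := (PP_eq hn j).pow 3
  have h4 : EQ n 1 ((-1 : K) ^ j) ((-1) ^ j) := EQ.refl (pow_mem (neg_mem (one_mem _)) _)
  exact (h4.mul h3).div one_pos (EQ.refl h1.2.1) h1

theorem b_eq (j : ℕ) : b j = (2 ^ j * ch j) ^ 3 := by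
  rw [b, ch, mul_pow, div_pow, ← pow_mul, mul_comm j 3, pow_mul]
  norm_num
  ring

theorem block_sum (hn : n = 2 * M + 1) (hn1 : 1 < n) (j : ℕ) :
    EQ n 2 (∑ i ∈ range n, f (j * n + i))
      ((-1) ^ M * q ^ (M ^ 2) * (w n / (1 - q)) * ((-1) ^ j * (3 * j + 1) * (b j : K))) := by
  have h1 := one_sub_q_U hn1
  have hr1 : Nat.Coprime n 1 := Nat.coprime_one_right n
  have s1 : ∑ i ∈ range n, f (j * n + i) = pf n j * ∑ i ∈ range n, tt n j i := by
    rw [mul_sum]; exact sum_congr rfl fun i _ => f_block hn j i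
  have s2 : EQ n 2 (∑ i ∈ range n, tt n j i) (∑ i ∈ range (M + 1), ss n j i) := by
    have : ∑ i ∈ range n, tt n j i = ∑ i ∈ range (M + 1), tt n j i +
        ∑ i ∈ range M, tt n j (M + 1 + i) := by
      rw [← sum_range_add]; congr 1; rw [hn]; congr 1; ring
    rw [this]
    have a1 : EQ n 2 (∑ i ∈ range (M + 1), tt n j i) (∑ i ∈ range (M + 1), ss n j i) :=
      EQ.sum fun i hi => tt_ss j (by have := mem_range.1 hi; omega)
    have a2 : EQ n 2 (∑ i ∈ range M, tt n j (M + 1 + i)) 0 := by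
      apply EQ.of_I
      refine I.sum fun i hi => ?_
      have hi' := mem_range.1 hi
      have hlt : M + 1 + i < n := by omega
      unfold tt
      have b1 := g1_I hn 1 (i := M + 1 + i) (by omega) (2 * j)
      have b2 := hh_U (n := n) hlt j
      refine I.mulL (mul_mem (pow_mem (neg_mem (one_mem _)) _)
        (sub_mem (one_mem _) (zpow_mem _))) ?_
      exact ((b1.mul b1).mulR b1.mem).mulR (mul_mem (mul_mem b2.2.2 b2.2.2) b2.2.2)
    have := a1.add a2
    rwa [add_zero] at this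
  rw [s1]
  have p1 := pf_eq hn hn1 j
  have s3 : EQ n 2 (pf n j * ∑ i ∈ range n, tt n j i) (pf n j * ∑ i ∈ range (M + 1), ss n j i) :=
    (EQ.refl p1.1).mul s2
  refine s3.trans ?_
  rw [ss_sum hn j]
  have u1 := g1_U hn hr1 (le_refl M) 0
  have e1 : pf n j * ((-1) ^ M * q ^ (M ^ 2) * (g1 n 1 M (3 * j) *
      (1 - q ^ ((n : ℤ) * (3 * j + 1))) / g1 n 1 M 0)) =
      w n * (pf n j * qi n (3 * j + 1) * (g1 n 1 M (3 * j) / g1 n 1 M 0) *
        ((-1) ^ M * q ^ (M ^ 2))) := by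
    rw [← w_qi]; ring
  have e2 : (-1) ^ M * q ^ (M ^ 2) * (w n / (1 - q)) * ((-1) ^ j * (3 * j + 1) * (b j : K)) =
      w n * ((-1) ^ j * ((2 ^ j * ch j : ℚ) : K) ^ 3 / (1 - q) * ((3 * j + 1 : ℤ) : K) * 1 *
        ((-1) ^ M * q ^ (M ^ 2))) := by
    rw [b_eq]; push_cast; ring
  rw [e1, e2]
  apply EQ.w_mul
  refine ((p1.mul (qi_eq _)).mul ?_).mul (EQ.refl (mul_mem (pow_mem (neg_mem (one_mem _)) _)
    (pow_mem' _)))
  have hB : (q ^ (2 * 1) : K) ∈ O n := pow_mem' _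
  have a1 : EQ n 1 (g1 n 1 M (3 * j)) (g1 n 1 M 0) := (gp_aff hB _ _).eq_one _ _
  have h2 := a1.symm.symm.div one_pos (EQ.refl u1.2.1) u1
  rwa [div_self u1.1] at h2

theorem main (hn : n = 2 * M + 1) (hn1 : 1 < n) (m : ℕ) : EQ n 2 (L m n) (R m n) := by
  have h1 : L m n = ∑ j ∈ range m, ∑ i ∈ range n, f (j * n + i) := by
    rw [L, ← sum_blocks]; rfl
  rw [h1]
  have h2 := EQ.sum (s := range m) fun j _ => block_sum hn hn1 j
  have h3 : ∑ j ∈ range m, ((-1) ^ M * q ^ (M ^ 2) * (w n / (1 - q)) *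
      ((-1) ^ j * (3 * j + 1) * (b j : K))) = R m n := by
    rw [← mul_sum, R]
    have e1 : (n - 1) / 2 = M := by omega
    have e2 : (n - 1) ^ 2 / 4 = M ^ 2 := by
      have : n - 1 = 2 * M := by omega
      rw [this, mul_pow]; norm_num
    rw [e1, e2, qint, w, zpow_natCast]
    congr 1
    push_cast
    rfl
  rwa [h3] at h2

end

/-- the case `n = 1`, `m = 2` -/
theorem fail : ¬ Cong (cyclotomic 1 ℚ ^ 2) (L 2 1) (R 2 1) := by
  intro h
  have hI : I 1 2 (L 2 1 - R 2 1) := I_of_num two_ne_zero h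
  have hq1 : (1 - q : K) ≠ 0 := by simpa using one_sub_pow_ne one_ne_zero
  have e : L 2 1 - R 2 1 = w 1 * (3 + 2 * q + q ^ 2) := by
    have hc : (∑ j ∈ range 2, (-1) ^ j * (3 * (j : ℚ) + 1) * b j : ℚ) = -3 := by
      norm_num [b, sum_range_succ, rf, Nat.factorial]
    have hS : L 2 1 = 1 - (1 - q ^ 4) / (1 - q) := by
      have e5 : q ^ (3 * ((1 : ℕ) : ℤ) + 1) = q ^ 4 := by
        rw [← zpow_natCast q 4]; norm_num
      rw [L, mul_one, sum_range_succ, sum_range_one]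
      simp only [cq, poch, range_zero, prod_empty, range_one, prod_singleton, pow_zero, mul_one,
        qint, e5]
      have e6 : (q ^ (3 * ((0 : ℕ) : ℤ) + 1) : K) = q := by norm_num
      rw [e6]
      field_simp
      ring
    have hR : R 2 1 = -3 := by
      rw [R, hc, qint]
      simp
      exact hq1
    rw [hS, hR, w]
    field_simp
    ring
  rw [e] at hI
  have h2 : I 1 1 (3 + 2 * q + q ^ 2 : K) := I_w_mul_iff.1 hI
  have h3 : I 1 1 (6 : K) := by
    have e3 : (6 : K) = (3 + 2 * q + q ^ 2) + w 1 * (3 + q) := by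
      rw [w]; ring
    rw [e3]
    refine h2.add (I_w.mulR ?_)
    have := add_mem (natCast_mem (O 1) 3) q_mem
    exact_mod_cast this
  have h60 : U 1 (6 : K) := by
    have := U_rat (n := 1) (c := 6) (by norm_num)
    exact_mod_cast this
  exact h60.not_I one_pos h3

/-- **Answer to Q1.** The congruence holds for all `m ≥ 1` and all odd `n > 1`; for `n = 1` it
fails for `m = 2`. -/
theorem result :
    (∀ m n : ℕ, 1 ≤ m → 1 < n → Odd n → Cong (cyclotomic n ℚ ^ 2) (L m n) (R m n)) ∧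
      ¬ Cong (cyclotomic 1 ℚ ^ 2) (L 2 1) (R 2 1) := by
  refine ⟨fun m n _ hn1 hodd => ?_, fail⟩
  obtain ⟨M, hM⟩ := hodd
  have : NeZero n := ⟨by omega⟩
  exact num_of_I (main hM hn1 m).2.2

end Pool.Agent.Results.MP_c82d9a_nt.EightCongruence
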